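import Pool.Agent.Helper57.EV.Bridge
import Pool.Agent.Helper3.EVC.Defs
import Pool.Agent.Helper29.PL.LoHi
import Pool.Agent.Helper99.ZB.Zero

/-!
# GPOLY: the polynomial `half p`, its roots, its lower and upper bounds, from the data of `p`

`p` is the Conway polynomial of a positive diagram with `c` crossings; no diagrams here.
-/

set_option autoImplicit false

namespace Pool.Agent.Helper57.GD

open Polynomial Pool.Agent.Helper57.EV Pool.Agent.Helper99.ZB

/-- signs, parity, degree -/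
structure Pn (c : ℕ) (p : ℤ[X]) : Prop where
  nz : p ≠ 0
  nn : ∀ k, 0 ≤ p.coeff k
  par : ∀ j k, p.coeff j ≠ 0 → p.coeff k ≠ 0 → j % 2 = k % 2
  deg : p.natDegree ≤ c

/-- no zero `s⁻¹ - s` for `|s| < 1`, `0 < Re s`, `|Im s| ≤ β` -/
def NZ (β : ℝ) (p : ℤ[X]) : Prop :=
  ∀ s : ℂ, ‖s‖ < 1 → 0 < s.re → |s.im| ≤ β → aeval (s⁻¹ - s) p ≠ 0

/-- all zeros satisfy `|z| ^ 2 ≤ T` -/
def FZ (T : ℝ) (p : ℤ[X]) : Prop := ∀ z : ℂ, aeval z p = 0 → ‖z‖ ^ 2 ≤ T

/-- lower bound on the positive axis -/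
def LoZ (A : ℝ) (N : ℕ) (R : ℝ) (c : ℕ) (p : ℤ[X]) : Prop :=
  ∀ y : ℝ, 0 < y → y ^ 2 ≤ R → Real.exp (c * EVC.A (y ^ 2)) * min 1 y ^ N ≤ Real.exp A * aeval y p

/-- upper bound -/
def UpZ (A : ℝ) (N : ℕ) (κ R : ℝ) (c : ℕ) (p : ℤ[X]) : Prop :=
  ∀ z : ℂ, z ≠ 0 → ‖z‖ ^ 2 ≤ R → ‖aeval z p‖ * min 1 ‖z‖ ^ N ≤
    Real.exp (A + c * EVC.A (‖z‖ ^ 2) - κ * (c * ‖z‖) * (1 - Real.cos (2 * z.arg)))

variable {c : ℕ} {p : ℤ[X]}

theorem Pn.par' (h : Pn c p) (j : ℕ) (hj : (j + p.natTrailingDegree) % 2 = 1) : p.coeff j = 0 := by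
  by_contra h1
  have h2 : p.coeff p.natTrailingDegree ≠ 0 := mt trailingCoeff_eq_zero.1 h.nz
  have := h.par j _ h1 h2
  omega

theorem Pn.ev (h : Pn c p) (z : ℂ) : aeval z p = z ^ p.natTrailingDegree * aeval (z ^ 2) (half p) :=
  aeval_half h.nz h.par' z

theorem Pn.hnn (h : Pn c p) (k : ℕ) : 0 ≤ (half p).coeff k := by
  rw [half_coeff]
  exact_mod_cast h.nn _

theorem Pn.h1 (h : Pn c p) : 1 ≤ (half p).coeff 0 := by
  rw [half_coeff, mul_zero, add_zero]
  have h1 : p.coeff p.natTrailingDegree ≠ 0 := mt trailingCoeff_eq_zero.1 h.nz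
  have h2 := h.nn p.natTrailingDegree
  have h3 : 1 ≤ p.coeff p.natTrailingDegree := by omega
  exact_mod_cast h3

theorem Pn.nice (h : Pn c p) : EVC.Nice c (half p) where
  nn := h.hnn
  one := h.h1
  deg := by
    have h1 : (half p).natDegree ≤ c / 2 := by
      rw [natDegree_le_iff_coeff_eq_zero]
      intro j hj
      have h2 := h.deg
      rw [half_coeff, coeff_eq_zero_of_natDegree_lt (by omega)]
      simp
    omega

theorem root_of_half (h : Pn c p) {ρ : ℂ} (hρ : ρ ∈ EVC.Z (half p)) :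
    ∃ z : ℂ, z ^ 2 = ρ ∧ 0 ≤ z.re ∧ aeval z p = 0 := by
  obtain ⟨y, hy⟩ := IsAlgClosed.exists_pow_nat_eq ρ (n := 2) (by norm_num)
  obtain ⟨z, hz, hzre⟩ : ∃ z : ℂ, z ^ 2 = ρ ∧ 0 ≤ z.re := by
    rcases le_total 0 y.re with h1 | h1
    · exact ⟨y, hy, h1⟩
    · exact ⟨-y, by rw [neg_sq]; exact hy, by rw [Complex.neg_re]; linarith⟩
  refine ⟨z, hz, hzre, ?_⟩
  have h2 : aeval ρ (half p) = 0 := by
    unfold EVC.Z at hρ
    have h3 := (mem_roots'.1 hρ).2
    rw [IsRoot.def, eval_map_algebraMap] at h3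
    exact h3
  rw [h.ev z, hz, h2, mul_zero]

theorem zero_not_mem (h : Pn c p) {ρ : ℂ} (hρ : ρ ∈ EVC.Z (half p)) : ρ ≠ 0 := by
  have h1 := h.h1
  rintro rfl
  unfold EVC.Z at hρ
  have h3 := (mem_roots'.1 hρ).2
  rw [IsRoot.def, eval_map_algebraMap, ← coeff_zero_eq_aeval_zero', Complex.coe_algebraMap, Complex.ofReal_eq_zero] at h3
  linarith

/-- **Roots in the variable `z`**: imaginary, or outside a sector and large. -/
theorem root_z {β : ℝ} (hβ : 0 < β) (hN : NZ β p) {z : ℂ} (hz : aeval z p = 0) (hre : 0 ≤ z.re) :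
    z.re = 0 ∨ (β * z.re ≤ |z.im| ∧ β ≤ |z.im|) := by
  obtain ⟨s, hs0, hs1, hzs⟩ := exists_s z
  obtain ⟨a, ha⟩ : ∃ a, a = s.re := ⟨_, rfl⟩
  obtain ⟨b, hb⟩ : ∃ b, b = s.im := ⟨_, rfl⟩
  obtain ⟨q, hq⟩ : ∃ q, q = a ^ 2 + b ^ 2 := ⟨_, rfl⟩
  have hq1 : Complex.normSq s = q := by
    rw [hq, ha, hb, Complex.normSq_apply]
    ring
  have hq0 : 0 < q := by rw [← hq1]; exact Complex.normSq_pos.2 hs0
  have hqs : ‖s‖ ^ 2 = q := by rw [← hq1, Complex.normSq_eq_norm_sq]
  have hzre : z.re = a * (1 - q) / q := by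
    rw [hzs, Complex.sub_re, Complex.inv_re, hq1, ← ha]
    field_simp
  have hzim : z.im = -(b * (1 + q) / q) := by
    rw [hzs, Complex.sub_im, Complex.inv_im, hq1, ← hb]
    field_simp
    ring
  have hqle : q ≤ 1 := by
    rw [← hqs]
    exact pow_le_one₀ (norm_nonneg _) hs1
  rcases eq_or_lt_of_le hqle with h1 | h1
  · left
    rw [hzre, h1]
    simp
  have hs1' : ‖s‖ < 1 := by
    by_contra hcon
    rw [not_lt] at hcon
    have : 1 ≤ ‖s‖ ^ 2 := one_le_pow₀ hcon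
    linarith
  have ha0 : 0 ≤ a := by
    by_contra hcon
    rw [not_le] at hcon
    have : z.re < 0 := by
      rw [hzre]
      exact div_neg_of_neg_of_pos (mul_neg_of_neg_of_pos hcon (by linarith)) hq0
    linarith
  rcases eq_or_lt_of_le ha0 with h2 | h2
  · left
    rw [hzre, ← h2]
    simp
  right
  have hb1 : β < |b| := by
    by_contra hcon
    rw [not_lt] at hcon
    exact hN s hs1' (by rw [← ha]; exact h2) (by rw [← hb]; exact hcon) (by rw [← hzs]; exact hz)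
  have ha1 : a ≤ 1 := by
    have : a ^ 2 ≤ 1 := by
      have := sq_nonneg b
      linarith
    nlinarith
  have habs : |z.im| = |b| * (1 + q) / q := by
    rw [hzim, abs_neg, abs_div, abs_mul, abs_of_pos hq0, abs_of_pos (by linarith : 0 < 1 + q)]
  rw [habs, hzre]
  constructor
  · rw [← mul_div_assoc]
    apply div_le_div_of_nonneg_right _ hq0.le
    have e1 : a * (1 - q) ≤ 1 := by nlinarith
    have e2 : β * (a * (1 - q)) ≤ β * 1 := mul_le_mul_of_nonneg_left e1 hβ.le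
    nlinarith
  · rw [le_div_iff₀ hq0]
    nlinarith

/-- **Near zero all roots are real negative.** -/
theorem near_real {β : ℝ} (hβ : 0 < β) (h : Pn c p) (hN : NZ β p) {ρ : ℂ}
    (hρ : ρ ∈ EVC.Z (half p)) (hs : ‖ρ‖ < β ^ 2) : ρ.re < 0 ∧ ρ.im = 0 := by
  obtain ⟨z, hz, hre, hz0⟩ := root_of_half h hρ
  rw [← hz, norm_pow] at hs
  rcases root_z hβ hN hz0 hre with h1 | ⟨-, h1⟩
  · have h2 : z = z.im * Complex.I := by
      apply Complex.ext
      · simp [h1]
      · simp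
    have h3 : z ^ 2 = ((-(z.im ^ 2) : ℝ) : ℂ) := by
      have h5 : z ^ 2 = (z.im * Complex.I) ^ 2 := congrArg (fun x => x ^ 2) h2
      rw [h5]
      push_cast
      linear_combination ((z.im : ℝ) : ℂ) ^ 2 * Complex.I_sq
    have h4 := zero_not_mem h hρ
    rw [← hz, h3]
    rw [← hz, h3] at h4
    refine ⟨?_, Complex.ofReal_im _⟩
    rw [Complex.ofReal_re]
    have h5 : z.im ≠ 0 := by
      rintro h6
      rw [h6] at h4
      simp at h4
    have : 0 < z.im ^ 2 := by positivity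
    linarith
  · exfalso
    have h2 := h1.trans (Complex.abs_im_le_norm z)
    have h3 : β ^ 2 ≤ ‖z‖ ^ 2 := pow_le_pow_left₀ hβ.le h2 2
    linarith

theorem near_sixty {β : ℝ} (hβ : 0 < β) (h : Pn c p) (hN : NZ β p) {ρ : ℂ}
    (hρ : ρ ∈ EVC.Z (half p)) (hs : ‖ρ‖ < β ^ 2) : ρ.re < 0 ∧ ρ.im ^ 2 ≤ 3 * ρ.re ^ 2 := by
  obtain ⟨h1, h2⟩ := near_real hβ h hN hρ hs
  refine ⟨h1, ?_⟩
  rw [h2]
  have := sq_nonneg ρ.re
  nlinarith

/-- **The distance of the roots from the positive axis**, all radii. -/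
theorem dist_pos {φ : ℝ} (hφ0 : 0 < φ) (hφ1 : φ ≤ 1) (h : Pn c p) (hN : NZ φ p) {ρ : ℂ}
    (hρ : ρ ∈ EVC.Z (half p)) {r : ℝ} (hr : 0 < r) : φ / 10 * (r + ‖ρ‖) ≤ ‖(r : ℂ) - ρ‖ := by
  obtain ⟨z, hz, hre, hz0⟩ := root_of_half h hρ
  obtain ⟨x, hx⟩ : ∃ x, x = √r := ⟨_, rfl⟩
  have hx0 : 0 < x := by rw [hx]; exact Real.sqrt_pos.2 hr
  have hxr : x ^ 2 = r := by rw [hx]; exact Real.sq_sqrt hr.le
  -- the sector
  have hsec : φ * z.re ≤ |z.im| := by
    rcases root_z hφ0 hN hz0 hre with h1 | ⟨h1, -⟩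
    · rw [h1, mul_zero]
      exact abs_nonneg _
    · exact h1
  obtain ⟨y, hy⟩ : ∃ y, y = ‖z - x‖ := ⟨_, rfl⟩
  have h1 : |z.im| ≤ y := by
    have := Complex.abs_im_le_norm (z - x)
    rw [Complex.sub_im, Complex.ofReal_im, sub_zero, ← hy] at this
    exact this
  have h2 : x - z.re ≤ y := by
    have := (neg_abs_le _).trans' (neg_le_neg (Complex.abs_re_le_norm (z - x)))
    rw [Complex.sub_re, Complex.ofReal_re, ← hy] at this
    linarith
  have hy0 : 0 ≤ y := by rw [hy]; exact norm_nonneg _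
  have h3 : φ * x ≤ 2 * y := by nlinarith
  have h4 : ‖z‖ ≤ x + y := by
    have := norm_add_le (z - x) (x : ℂ)
    rw [sub_add_cancel, Complex.norm_real, Real.norm_of_nonneg hx0.le, ← hy] at this
    linarith
  have hzn := norm_nonneg z
  have h5 : φ * (x + ‖z‖) ≤ 5 * y := by nlinarith
  have h6 : (x + ‖z‖) / 2 ≤ ‖z + x‖ := by
    have h7 : x ≤ ‖z + x‖ := by
      have := (le_abs_self _).trans (Complex.abs_re_le_norm (z + x))
      rw [Complex.add_re, Complex.ofReal_re] at this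
      linarith
    have h8 : ‖z‖ ≤ ‖z + x‖ := by
      rw [← sq_le_sq₀ (norm_nonneg _) (norm_nonneg _), ← Complex.normSq_eq_norm_sq, ← Complex.normSq_eq_norm_sq,
        Complex.normSq_apply, Complex.normSq_apply, Complex.add_re, Complex.add_im, Complex.ofReal_re, Complex.ofReal_im]
      nlinarith
    linarith
  have h7 : ‖(r : ℂ) - ρ‖ = y * ‖z + x‖ := by
    rw [hy, ← norm_mul]
    have e1 : (z - (x : ℂ)) * (z + (x : ℂ)) = -((r : ℂ) - ρ) := by
      have e2 : ((x : ℝ) : ℂ) ^ 2 = (r : ℂ) := by exact_mod_cast hxr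
      rw [← hz]
      linear_combination -e2
    rw [e1, norm_neg]
  have h8 : r + ‖ρ‖ ≤ (x + ‖z‖) * (x + ‖z‖) := by
    rw [← hxr, ← hz, norm_pow]
    nlinarith [mul_nonneg hx0.le hzn]
  rw [h7]
  calc φ / 10 * (r + ‖ρ‖) ≤ φ / 10 * ((x + ‖z‖) * (x + ‖z‖)) := mul_le_mul_of_nonneg_left h8 (by positivity)
    _ = (φ * (x + ‖z‖) / 5) * ((x + ‖z‖) / 2) := by ring
    _ ≤ y * ‖z + x‖ := by
      refine mul_le_mul (by linarith) h6 (by positivity) hy0

theorem far_of {T : ℝ} (h : Pn c p) (hF : FZ T p) {ρ : ℂ} (hρ : ρ ∈ EVC.Z (half p)) : ‖ρ‖ ≤ T := by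
  obtain ⟨z, hz, -, hz0⟩ := root_of_half h hρ
  rw [← hz, norm_pow]
  exact hF z hz0

theorem eval_one_pos (h : Pn c p) : 1 ≤ (half p).eval 1 := Pool.Agent.Helper29.PL.one_le_eval h.hnn h.h1 zero_le_one

theorem trailing_le {A : ℝ} {N : ℕ} {R : ℝ} (hR : 1 ≤ R) (h : Pn c p) (hL : LoZ A N R c p) : p.natTrailingDegree ≤ N := by
  by_contra hcon
  push Not at hcon
  obtain ⟨M, hM⟩ : ∃ M, M = (half p).eval 1 := ⟨_, rfl⟩
  have hM0 : 0 ≤ M := by
    rw [hM]
    exact zero_le_one.trans (eval_one_pos h)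
  have key : ∀ x : ℝ, 0 < x → x ≤ 1 → 1 ≤ x * (Real.exp A * M) := by
    intro x hx hx1
    have h2 := hL x hx (by nlinarith)
    rw [min_eq_right hx1, Pool.Agent.Helper29.PL.real_half h.ev x] at h2
    have h3 : x ^ N ≤ Real.exp A * (x ^ (N + 1) * M) := by
      have h4 : x ^ N ≤ Real.exp (c * EVC.A (x ^ 2)) * x ^ N := by
        have : 1 ≤ Real.exp (c * EVC.A (x ^ 2)) := by
          rw [Real.one_le_exp_iff]
          exact mul_nonneg (Nat.cast_nonneg c) (Pool.Agent.Helper29.PL.A_nonneg _)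
        have h5 : 0 ≤ x ^ N := by positivity
        nlinarith
      refine h4.trans (h2.trans ?_)
      have h6 : (half p).eval (x ^ 2) ≤ M := by
        rw [hM]
        exact Pool.Agent.Helper29.PL.half_eval_mono h.hnn (by positivity) (by nlinarith)
      have h7 : 0 ≤ (half p).eval (x ^ 2) :=
        zero_le_one.trans (Pool.Agent.Helper29.PL.one_le_eval h.hnn h.h1 (by positivity))
      have h8 : x ^ p.natTrailingDegree ≤ x ^ (N + 1) := pow_le_pow_of_le_one hx.le hx1 hcon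
      exact mul_le_mul_of_nonneg_left (mul_le_mul h8 h6 h7 (by positivity)) (Real.exp_pos _).le
    have h4 : 0 < x ^ N := by positivity
    refine le_of_mul_le_mul_left ?_ h4
    calc x ^ N * 1 = x ^ N := mul_one _
      _ ≤ Real.exp A * (x ^ (N + 1) * M) := h3
      _ = x ^ N * (x * (Real.exp A * M)) := by ring
  have hx : 0 < 1 / (Real.exp A * M + 1) := by positivity
  have h2 := key (1 / (Real.exp A * M + 1)) hx (by
    rw [div_le_one (by positivity)]
    have : 0 ≤ Real.exp A * M := by positivity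
    linarith)
  rw [one_div, inv_mul_eq_div, le_div_iff₀ (by positivity)] at h2
  linarith

/-- the error term -/
noncomputable def EG (A : ℝ) (N : ℕ) (R : ℝ) (c : ℕ) : ℝ := A + 2 * N * Real.log c + N * Real.log R + 2

theorem EG_ge {A : ℝ} {N : ℕ} {R : ℝ} {c : ℕ} (hA : 0 ≤ A) (hR : 1 ≤ R) (hc : 1 ≤ c) : 1 ≤ EG A N R c := by
  unfold EG
  have h1 : 0 ≤ Real.log c := Real.log_nonneg (by exact_mod_cast hc)
  have h2 : 0 ≤ Real.log R := Real.log_nonneg hR
  have h3 : (0 : ℝ) ≤ N := Nat.cast_nonneg N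
  have h4 : 0 ≤ 2 * N * Real.log c := by positivity
  have h5 : 0 ≤ N * Real.log R := by positivity
  linarith

/-- **The lower bound.** -/
theorem lo_half {A : ℝ} (hA : 0 ≤ A) {N : ℕ} {R : ℝ} (hR : 1 ≤ R) (hc : 1 ≤ c) (h : Pn c p) (hL : LoZ A N R c p)
    {r : ℝ} (hr : 0 < r) (hrR : r ≤ R) :
    Real.exp (c * EVC.A r - EG A N R c) ≤ (half p).eval r := by
  have htr := trailing_le hR h hL
  have hcR : (1 : ℝ) ≤ c := by exact_mod_cast hc
  have hlog : 0 ≤ Real.log c := Real.log_nonneg hcR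
  have hlogR : 0 ≤ Real.log R := Real.log_nonneg hR
  have hN0 : (0 : ℝ) ≤ N := Nat.cast_nonneg N
  have hP1 := Pool.Agent.Helper29.PL.one_le_eval h.hnn h.h1 hr.le
  have hNc : 0 ≤ N * Real.log c := by positivity
  have hNR : 0 ≤ N * Real.log R := by positivity
  obtain ⟨x, hx⟩ : ∃ x, x = √r := ⟨_, rfl⟩
  have hx0 : 0 < x := by rw [hx]; exact Real.sqrt_pos.2 hr
  have hx2 : x ^ 2 = r := by rw [hx]; exact Real.sq_sqrt hr.le
  have h2 := hL x hx0 (by rw [hx2]; exact hrR)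
  rw [Pool.Agent.Helper29.PL.real_half h.ev x, hx2] at h2
  obtain ⟨o, ho⟩ : ∃ o, o = p.natTrailingDegree := ⟨_, rfl⟩
  rw [← ho] at h2 htr
  rcases le_or_gt (c * x) 1 with hsmall | hbig
  · -- small radii
    refine le_trans ?_ hP1
    rw [Real.exp_le_one_iff]
    have h3 := Pool.Agent.Helper29.PL.A_le r
    rw [← hx] at h3
    have h4 : c * EVC.A r ≤ c * (x / 2) := mul_le_mul_of_nonneg_left h3 (by linarith)
    unfold EG
    nlinarith
  · rcases le_or_gt x 1 with hx1 | hx1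
    · rw [min_eq_right hx1] at h2
      have h3 : Real.exp (c * EVC.A r) * x ^ N ≤ Real.exp A * (half p).eval r := by
        refine h2.trans (mul_le_mul_of_nonneg_left ?_ (Real.exp_pos _).le)
        have : x ^ o ≤ 1 := pow_le_one₀ hx0.le hx1
        nlinarith
      have h4 : Real.exp (-(N * Real.log c)) ≤ x ^ N := by
        have h5 : (c : ℝ)⁻¹ ≤ x := by
          rw [inv_le_iff_one_le_mul₀ (by linarith)]
          linarith
        have h6 : Real.exp (-(N * Real.log c)) = ((c : ℝ)⁻¹) ^ N := by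
          rw [← mul_neg, ← Real.log_inv, ← Real.log_pow, Real.exp_log (by positivity)]
        rw [h6]
        exact pow_le_pow_left₀ (by positivity) h5 _
      have h5 : Real.exp (c * EVC.A r) * Real.exp (-(N * Real.log c)) ≤ Real.exp A * (half p).eval r :=
        (mul_le_mul_of_nonneg_left h4 (Real.exp_pos _).le).trans h3
      have h6 : Real.exp (-A) * (Real.exp (c * EVC.A r) * Real.exp (-(N * Real.log c))) ≤ (half p).eval r := by
        calc Real.exp (-A) * (Real.exp (c * EVC.A r) * Real.exp (-(N * Real.log c)))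
            ≤ Real.exp (-A) * (Real.exp A * (half p).eval r) := mul_le_mul_of_nonneg_left h5 (Real.exp_pos _).le
          _ = (half p).eval r := by
            rw [← mul_assoc, ← Real.exp_add, neg_add_cancel, Real.exp_zero, one_mul]
      refine le_trans ?_ h6
      rw [← Real.exp_add, ← Real.exp_add]
      apply Real.exp_le_exp.2
      unfold EG
      linarith
    · rw [min_eq_left hx1.le, one_pow, mul_one] at h2
      have h4 : x ^ o ≤ Real.exp (N * Real.log R) := by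
        have h5 : x ≤ R := by nlinarith
        have h6 : Real.exp (N * Real.log R) = R ^ N := by
          rw [← Real.log_pow, Real.exp_log (by positivity)]
        rw [h6]
        exact (pow_le_pow_right₀ hx1.le htr).trans (pow_le_pow_left₀ hx0.le h5 N)
      have h5 : Real.exp (c * EVC.A r) ≤ Real.exp A * (Real.exp (N * Real.log R) * (half p).eval r) :=
        h2.trans (mul_le_mul_of_nonneg_left (mul_le_mul_of_nonneg_right h4 (by linarith)) (Real.exp_pos _).le)
      have h6 : Real.exp (-A - N * Real.log R) * Real.exp (c * EVC.A r) ≤ (half p).eval r := by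
        calc Real.exp (-A - N * Real.log R) * Real.exp (c * EVC.A r)
            ≤ Real.exp (-A - N * Real.log R) * (Real.exp A * (Real.exp (N * Real.log R) * (half p).eval r)) :=
              mul_le_mul_of_nonneg_left h5 (Real.exp_pos _).le
          _ = (half p).eval r := by
            rw [← mul_assoc, ← mul_assoc, ← Real.exp_add, ← Real.exp_add]
            have : -A - N * Real.log R + A + N * Real.log R = 0 := by ring
            rw [this, Real.exp_zero, one_mul]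
      refine le_trans ?_ h6
      rw [← Real.exp_add]
      apply Real.exp_le_exp.2
      unfold EG
      linarith

/-- **The upper bound.** -/
theorem hi_half {A A' : ℝ} (hA : 0 ≤ A) {N : ℕ} {κ R : ℝ} (hκ : 0 ≤ κ) (hκ1 : κ ≤ 1 / 2) (hR : 1 ≤ R) (hc : 1 ≤ c) (h : Pn c p)
    (hL : LoZ A' N R c p) (hU : UpZ A N κ R c p)
    {r θ : ℝ} (hr : 0 < r) (hrR : r ≤ R) (hθ : |θ| ≤ Real.pi) :
    ‖aeval (EVC.pt r θ) (half p)‖ ≤ Real.exp (c * EVC.A r + EG A N R c - κ * (c * √r) * (1 - Real.cos θ)) := by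
  have htr := trailing_le hR h hL
  have hcR : (1 : ℝ) ≤ c := by exact_mod_cast hc
  have hlog : 0 ≤ Real.log c := Real.log_nonneg hcR
  have hlogR : 0 ≤ Real.log R := Real.log_nonneg hR
  have hN0 : (0 : ℝ) ≤ N := Nat.cast_nonneg N
  have hNc : 0 ≤ N * Real.log c := by positivity
  have hNR : 0 ≤ N * Real.log R := by positivity
  have hcos : 0 ≤ 1 - Real.cos θ := by linarith [Real.cos_le_one θ]
  have hcos2 : 1 - Real.cos θ ≤ 2 := by linarith [Real.neg_one_le_cos θ]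
  obtain ⟨x, hx⟩ : ∃ x, x = √r := ⟨_, rfl⟩
  have hx0 : 0 < x := by rw [hx]; exact Real.sqrt_pos.2 hr
  have hx2 : x ^ 2 = r := by rw [hx]; exact Real.sq_sqrt hr.le
  obtain ⟨o, ho⟩ : ∃ o, o = p.natTrailingDegree := ⟨_, rfl⟩
  rw [← ho] at htr
  -- from the bound of `p` to the bound of `half p`
  have key : ∀ y : ℝ, 0 < y → 1 ≤ c * y → ∀ a B : ℝ, 0 ≤ a → 0 ≤ B → y ^ o * a * min 1 y ^ N ≤ B →
      a ≤ Real.exp (2 * N * Real.log c) * B := by
    intro y hy hcy a B ha hB hab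
    have h1 : Real.exp (2 * N * Real.log c) = (c : ℝ) ^ N * (c : ℝ) ^ N := by
      rw [← pow_add, ← Real.exp_log (show (0 : ℝ) < (c : ℝ) ^ (N + N) by positivity), Real.log_pow]
      congr 1
      push_cast
      ring
    rw [h1]
    have h2 : 1 ≤ (c : ℝ) ^ N * min 1 y ^ N := by
      rw [← mul_pow]
      apply one_le_pow₀
      rcases le_total 1 y with h3 | h3
      · rw [min_eq_left h3]; linarith
      · rw [min_eq_right h3]; exact hcy
    have h3 : 1 ≤ (c : ℝ) ^ N * y ^ o := by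
      calc (1 : ℝ) ≤ (c * y) ^ o := one_le_pow₀ hcy
        _ = (c : ℝ) ^ o * y ^ o := mul_pow _ _ _
        _ ≤ (c : ℝ) ^ N * y ^ o := mul_le_mul_of_nonneg_right (pow_le_pow_right₀ hcR htr) (by positivity)
    have h4 : 1 ≤ ((c : ℝ) ^ N * y ^ o) * ((c : ℝ) ^ N * min 1 y ^ N) := one_le_mul_of_one_le_of_one_le h3 h2
    calc a = 1 * a := (one_mul a).symm
      _ ≤ ((c : ℝ) ^ N * y ^ o) * ((c : ℝ) ^ N * min 1 y ^ N) * a := mul_le_mul_of_nonneg_right h4 ha
      _ = (c : ℝ) ^ N * (c : ℝ) ^ N * (y ^ o * a * min 1 y ^ N) := by ring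
      _ ≤ _ := mul_le_mul_of_nonneg_left hab (by positivity)
  rw [← hx]
  rcases le_or_gt (c * x) 1 with hsmall | hbig
  · -- small radii
    obtain ⟨y, hy⟩ : ∃ y : ℝ, y = (c : ℝ)⁻¹ := ⟨_, rfl⟩
    have hy0 : 0 < y := by rw [hy]; positivity
    have hLy : c * y = 1 := by rw [hy]; exact mul_inv_cancel₀ (by linarith)
    have hy1 : y ≤ 1 := by rw [hy]; exact inv_le_one_of_one_le₀ hcR
    have hry : r ≤ y ^ 2 := by
      rw [← hx2]
      have : x ≤ y := by
        have : c * x ≤ c * y := by rw [hLy]; exact hsmall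
        exact le_of_mul_le_mul_left this (by linarith)
      exact pow_le_pow_left₀ hx0.le this 2
    have h2 := (Pool.Agent.Helper29.PL.norm_aeval_le (θ := θ) h.hnn hr.le).trans
      (Pool.Agent.Helper29.PL.half_eval_mono h.hnn hr.le hry)
    have h3 := hU (y : ℂ) (by exact_mod_cast hy0.ne') (by
      rw [Complex.norm_real, Real.norm_of_nonneg hy0.le]
      nlinarith)
    rw [Complex.norm_real, Real.norm_of_nonneg hy0.le, Complex.arg_ofReal_of_nonneg hy0.le, mul_zero, Real.cos_zero, sub_self,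
      mul_zero, sub_zero] at h3
    have hPy := zero_le_one.trans (Pool.Agent.Helper29.PL.one_le_eval h.hnn h.h1 (show (0 : ℝ) ≤ y ^ 2 by positivity))
    have h4 : ‖aeval (y : ℂ) p‖ = y ^ o * (half p).eval (y ^ 2) := by
      have h5 : aeval (y : ℂ) p = ((aeval y p : ℝ) : ℂ) := by
        have := aeval_algebraMap_apply (A := ℝ) (B := ℂ) (x := y) (p := p)
        simpa using this
      rw [h5, Pool.Agent.Helper29.PL.real_half h.ev y, Complex.norm_real, Real.norm_of_nonneg, ho]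
      exact mul_nonneg (by positivity) hPy
    rw [h4] at h3
    have h5 : c * EVC.A (y ^ 2) ≤ 1 := by
      have h6 := Pool.Agent.Helper29.PL.A_le (y ^ 2)
      rw [Real.sqrt_sq hy0.le] at h6
      have h7 : c * EVC.A (y ^ 2) ≤ c * (y / 2) := mul_le_mul_of_nonneg_left h6 (by linarith)
      linarith
    have h7 := key y hy0 hLy.ge _ _ hPy (Real.exp_pos _).le h3
    refine h2.trans (h7.trans ?_)
    rw [← Real.exp_add]
    apply Real.exp_le_exp.2
    have hA0 := mul_nonneg (show (0 : ℝ) ≤ c by linarith) (Pool.Agent.Helper29.PL.A_nonneg r)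
    have h8 : κ * (c * x) * (1 - Real.cos θ) ≤ 1 := by
      have h10 : κ * (c * x) ≤ 1 / 2 * 1 := mul_le_mul hκ1 hsmall (by positivity) (by norm_num)
      have h11 : 0 ≤ κ * (c * x) := by positivity
      nlinarith
    unfold EG
    linarith
  · obtain ⟨z, hz0, hz2, hzn, hzc⟩ := Pool.Agent.Helper29.PL.exists_z hr hθ
    have h2 := hU z hz0 (by rw [hzn, ← hx, hx2]; exact hrR)
    rw [h.ev z, hz2, hzn, ← hx, hx2, hzc, norm_mul, norm_pow, hzn, ← hx, ← ho] at h2
    have h6 := key x hx0 hbig.le _ _ (norm_nonneg _) (Real.exp_pos _).le h2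
    refine h6.trans ?_
    rw [← Real.exp_add]
    apply Real.exp_le_exp.2
    unfold EG
    linarith

/-- the coefficients of `p` from those of `half p` -/
theorem coeff_of (h : Pn c p) (hlc : ∀ k : ℕ, 1 ≤ k → (half p).coeff (k - 1) * (half p).coeff (k + 1) ≤ (half p).coeff k ^ 2)
    (k : ℕ) : p.coeff k * p.coeff (k + 4) ≤ p.coeff (k + 2) ^ 2 := by
  have h1 := lc_of_half h.nz h.par' (fun k => by
    have := hlc (k + 1) (by omega)
    rw [Nat.add_sub_cancel] at this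
    exact this) ((k : ℤ) + 2)
  have e1 : (k : ℤ) + 2 + 2 = ((k + 4 : ℕ) : ℤ) := by push_cast; ring
  have e2 : (k : ℤ) + 2 - 2 = ((k : ℕ) : ℤ) := by ring
  have e3 : (k : ℤ) + 2 = ((k + 2 : ℕ) : ℤ) := by push_cast; ring
  rw [e1, e2, e3, Pool.Agent.Helper76.Conway.cz_natCast, Pool.Agent.Helper76.Conway.cz_natCast,
    Pool.Agent.Helper76.Conway.cz_natCast] at h1
  rw [mul_comm]
  exact h1

end Pool.Agent.Helper57.GD
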