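import Pool.Agent.Helper57.GD.Half
import Pool.Agent.Helper57.PD.Last
import Pool.Agent.Helper43.PD.Plane
import Pool.Agent.Helper74.GP.Core

/-!
# GPOLY: the final theorem from the four facts about the Conway polynomial of a positive diagram
-/

set_option autoImplicit false

namespace Pool.Agent.Helper57.GD

open Polynomial Pool.Agent.Helper85.Exp Pool.Agent.Helper60.EV2 Pool.Agent.Helper2.PD Pool.Agent.Helper57.EV
  Pool.Agent.Helper57.PD Pool.Agent.Helper27.EV2 Pool.Agent.Helper16.PD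

/-- polynomial bounds in the number of Seifert circles -/
def PB (B s : ℕ) : ℕ := B * (s + 1) ^ B

theorem PB_mono {B B' : ℕ} (h : B ≤ B') (s : ℕ) : PB B s ≤ PB B' s :=
  Nat.mul_le_mul h (Nat.pow_le_pow_right (by omega) h)

theorem PB_pos {B : ℕ} (h : 1 ≤ B) (s : ℕ) : 1 ≤ PB B s :=
  Nat.mul_pos h (Nat.pow_pos (by omega))

/-- no zeros near the positive axis -/
def AllNZ : Prop := ∃ B : ℕ, 1 ≤ B ∧ ∀ (s : ℕ) (P : Type) [Fintype P] (G : Sh P), Good s G → Nonempty P →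
  ∀ nab : Dg G → ℤ[X], Cs nab → NZ (1 / (PB B s : ℝ)) (nab (allPos G))

/-- no far zeros -/
def AllFZ : Prop := ∃ B : ℕ, 1 ≤ B ∧ ∀ (s : ℕ) (P : Type) [Fintype P] (G : Sh P), Good s G → Nonempty P →
  ∀ nab : Dg G → ℤ[X], Cs nab → FZ (PB B s : ℝ) (nab (allPos G))

/-- lower bounds -/
def AllLoZ : Prop := ∃ B : ℕ, 1 ≤ B ∧ ∀ (s : ℕ) (P : Type) [Fintype P] (G : Sh P), Good s G → Nonempty P →
  ∀ nab : Dg G → ℤ[X], Cs nab → ∀ R : ℝ, 1 ≤ R →
    LoZ ((PB B s : ℝ) * (1 + Real.log R)) (PB B s) R (Nat.card (Cr G)) (nab (allPos G))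

/-- upper bounds -/
def AllUpZ : Prop := ∃ B : ℕ, 1 ≤ B ∧ ∀ (s : ℕ) (P : Type) [Fintype P] (G : Sh P), Good s G → Nonempty P →
  ∀ nab : Dg G → ℤ[X], Cs nab → ∀ R : ℝ, 1 ≤ R →
    UpZ ((PB B s : ℝ) * (1 + Real.log R)) (PB B s) (1 / (256 * (R * √R))) R (Nat.card (Cr G)) (nab (allPos G))

section mono

variable {c : ℕ} {p : ℤ[X]}

theorem NZ.mono {β β' : ℝ} (h : NZ β p) (hb : β' ≤ β) : NZ β' p := fun s h1 h2 h3 => h s h1 h2 (h3.trans hb)

theorem FZ.mono {T T' : ℝ} (h : FZ T p) (hb : T ≤ T') : FZ T' p := fun z hz => (h z hz).trans hb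

theorem LoZ.mono {A A' : ℝ} {N N' : ℕ} {R : ℝ} (h : LoZ A N R c p) (hA : A ≤ A') (hN : N ≤ N') : LoZ A' N' R c p := by
  intro y hy hyR
  have h1 := h y hy hyR
  have h2 : min 1 y ^ N' ≤ min 1 y ^ N :=
    pow_le_pow_of_le_one (le_min zero_le_one hy.le) (min_le_left _ _) hN
  have h3 : 0 ≤ min 1 y ^ N := pow_nonneg (le_min zero_le_one hy.le) _
  have h4 : 0 ≤ aeval y p := by
    by_contra hcon
    rw [not_le] at hcon
    have h5 : 0 ≤ Real.exp (c * EVC.A (y ^ 2)) * min 1 y ^ N := mul_nonneg (Real.exp_pos _).le h3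
    have h6 : Real.exp A * aeval y p < 0 := mul_neg_of_pos_of_neg (Real.exp_pos _) hcon
    linarith
  calc Real.exp (c * EVC.A (y ^ 2)) * min 1 y ^ N' ≤ Real.exp (c * EVC.A (y ^ 2)) * min 1 y ^ N :=
        mul_le_mul_of_nonneg_left h2 (Real.exp_pos _).le
    _ ≤ Real.exp A * aeval y p := h1
    _ ≤ _ := mul_le_mul_of_nonneg_right (Real.exp_le_exp.2 hA) h4

theorem UpZ.mono {A A' : ℝ} {N N' : ℕ} {κ R : ℝ} (h : UpZ A N κ R c p) (hA : A ≤ A') (hN : N ≤ N') :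
    UpZ A' N' κ R c p := by
  intro z hz hzR
  have h1 := h z hz hzR
  have h2 : min 1 ‖z‖ ^ N' ≤ min 1 ‖z‖ ^ N :=
    pow_le_pow_of_le_one (le_min zero_le_one (norm_nonneg _)) (min_le_left _ _) hN
  refine (mul_le_mul_of_nonneg_left h2 (norm_nonneg _)).trans (h1.trans (Real.exp_le_exp.2 ?_))
  linarith

end mono

theorem pn_of {P : Type} [Fintype P] {G : Sh P} {s : ℕ} (hG : Good s G) (hne : Nonempty P) {nab : Dg G → ℤ[X]} (hn : Cs nab)
    {β : ℝ} (hβ : 0 < β) (hN : NZ β (nab (allPos G))) : Pn (Nat.card (Cr G)) (nab (allPos G)) where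
  nz := by
    intro h0
    refine hN ((1 / 2 : ℝ) : ℂ) ?_ ?_ ?_ (by rw [h0, map_zero])
    · rw [Complex.norm_real, Real.norm_of_nonneg (by norm_num)]
      norm_num
    · rw [Complex.ofReal_re]
      norm_num
    · rw [Complex.ofReal_im, abs_zero]
      exact hβ.le
  nn := (Pool.Agent.Helper60.PD.nab_nn hG.ho hn).1
  par := (Pool.Agent.Helper60.PD.nab_nn hG.ho hn).2.2
  deg := by
    have h1 := (Pool.Agent.Helper60.PD.nab_nn hG.ho hn).2.1
    have h2 := Pool.Agent.Helper2.PD.card_P G hG.ho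
    have h4 : Nat.card (Cr G) = Nat.card (Xg G) := rfl
    omega

theorem log_bound {X c : ℝ} (hX : 0 ≤ X) (hc : 0 < c) (h : (2 * X) ^ 2 ≤ c) : X * Real.log c ≤ c := by
  have hs : 0 < √c := Real.sqrt_pos.2 hc
  have h1 : 2 * X ≤ √c := Real.le_sqrt_of_sq_le h
  have h2 : Real.log c = 2 * Real.log √c := by
    rw [Real.log_sqrt hc.le]
    ring
  have h3 : Real.log √c ≤ √c := (Real.log_le_sub_one_of_pos hs).trans (by linarith)
  have h4 : √c * √c = c := Real.mul_self_sqrt hc.le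
  rw [h2]
  nlinarith

/-- **The numbers.** -/
theorem numbers {M c : ℕ} (hM : 1 ≤ M) (hc : 10 ^ 162 * M ^ 46 ≤ c) {R : ℝ} (hR : R = (10 ^ 4 * (M : ℝ) ^ 2) ^ 2) :
    10 ^ 33 * EG ((M : ℝ) * (1 + Real.log R)) M R c ≤
      c * ((1 / (256 * (R * √R))) ^ 3 * ((1 / (M : ℝ)) / 10) ^ 2 * √((1 / (M : ℝ)) ^ 2)) := by
  have hM1 : (1 : ℝ) ≤ M := by exact_mod_cast hM
  have hM0 : (0 : ℝ) < M := by linarith
  have hcR : (10 : ℝ) ^ 162 * (M : ℝ) ^ 46 ≤ c := by exact_mod_cast hc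
  have hM46 : (1 : ℝ) ≤ (M : ℝ) ^ 46 := one_le_pow₀ hM1
  have hc3 : (3 : ℝ) ≤ c := by
    have : (3 : ℝ) ≤ 10 ^ 162 * 1 := by norm_num
    nlinarith
  have hlog1 : 1 ≤ Real.log c := by
    rw [Real.le_log_iff_exp_le (by linarith)]
    have := Real.exp_one_lt_d9
    linarith
  have hsR : √R = 10 ^ 4 * (M : ℝ) ^ 2 := by rw [hR, Real.sqrt_sq (by positivity)]
  have hlogR : Real.log R ≤ 19 + 4 * M := by
    have e1 : R = 10 ^ 8 * (M : ℝ) ^ 4 := by rw [hR]; ring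
    rw [e1, Real.log_mul (by positivity) (by positivity), Real.log_pow, Real.log_pow]
    have h1 : Real.log M ≤ M := (Real.log_le_sub_one_of_pos hM0).trans (by linarith)
    have h2 : Real.log 10 ≤ 19 / 8 := by
      rw [Real.log_le_iff_le_exp (by norm_num)]
      have h3 : Real.exp (19 / 8) = Real.exp 1 ^ 2 * Real.exp (3 / 8) := by
        rw [← Real.exp_nat_mul, ← Real.exp_add]
        norm_num
      rw [h3]
      have h4 := Real.exp_one_gt_d9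
      have h5 := Real.add_one_le_exp (3 / 8 : ℝ)
      nlinarith
    push_cast
    linarith
  have hE : EG ((M : ℝ) * (1 + Real.log R)) M R c ≤ 51 * (M : ℝ) ^ 2 * Real.log c := by
    unfold EG
    have h1 : (M : ℝ) * (1 + Real.log R) ≤ M * (20 + 4 * M) := mul_le_mul_of_nonneg_left (by linarith) hM0.le
    have h2 : (M : ℝ) * Real.log R ≤ M * (19 + 4 * M) := mul_le_mul_of_nonneg_left hlogR hM0.le
    have h3 : (M : ℝ) ≤ (M : ℝ) ^ 2 := by nlinarith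
    have h4 : (M : ℝ) * Real.log c ≤ (M : ℝ) ^ 2 * Real.log c := mul_le_mul_of_nonneg_right h3 (by linarith)
    have h5 : (M : ℝ) ^ 2 ≤ (M : ℝ) ^ 2 * Real.log c := by nlinarith
    nlinarith
  have e1 : (1 / (256 * (R * √R))) ^ 3 * ((1 / (M : ℝ)) / 10) ^ 2 * √((1 / (M : ℝ)) ^ 2) =
      1 / (256 ^ 3 * 10 ^ 38 * (M : ℝ) ^ 21) := by
    rw [Real.sqrt_sq (by positivity), hsR, hR]
    field_simp
  rw [e1, mul_one_div, le_div_iff₀ (by positivity)]
  have h1 := log_bound (X := 10 ^ 33 * (51 * (M : ℝ) ^ 2) * (256 ^ 3 * 10 ^ 38 * (M : ℝ) ^ 21)) (c := c) (by positivity)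
    (by linarith) (by
      refine le_trans ?_ hcR
      have e2 : (2 * (10 ^ 33 * (51 * (M : ℝ) ^ 2) * (256 ^ 3 * 10 ^ 38 * (M : ℝ) ^ 21))) ^ 2 =
          (4 * (10 ^ 33 * 51 * (256 ^ 3 * 10 ^ 38)) ^ 2 : ℝ) * (M : ℝ) ^ 46 := by ring
      rw [e2]
      exact mul_le_mul_of_nonneg_right (by norm_num) (by positivity))
  refine le_trans ?_ h1
  calc 10 ^ 33 * EG ((M : ℝ) * (1 + Real.log R)) M R c * (256 ^ 3 * 10 ^ 38 * (M : ℝ) ^ 21)
      ≤ 10 ^ 33 * (51 * (M : ℝ) ^ 2 * Real.log c) * (256 ^ 3 * 10 ^ 38 * (M : ℝ) ^ 21) := by gcongr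
    _ = _ := by ring

/-- **One diagram.** -/
theorem one_diagram {M c : ℕ} (hM : 1 ≤ M) (hc : 10 ^ 162 * M ^ 46 ≤ c) {p : ℤ[X]} (h : Pn c p)
    (h1 : NZ (1 / (M : ℝ)) p) (h2 : FZ (M : ℝ) p)
    (h3 : ∀ R : ℝ, 1 ≤ R → LoZ ((M : ℝ) * (1 + Real.log R)) M R c p)
    (h4 : ∀ R : ℝ, 1 ≤ R → UpZ ((M : ℝ) * (1 + Real.log R)) M (1 / (256 * (R * √R))) R c p) (k : ℕ) :
    p.coeff k * p.coeff (k + 4) ≤ p.coeff (k + 2) ^ 2 := by
  have hM1 : (1 : ℝ) ≤ M := by exact_mod_cast hM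
  have hM0 : (0 : ℝ) < M := by linarith
  have hcR : (10 : ℝ) ^ 162 * (M : ℝ) ^ 46 ≤ c := by exact_mod_cast hc
  have hM46 : (1 : ℝ) ≤ (M : ℝ) ^ 46 := one_le_pow₀ hM1
  obtain ⟨R, hR⟩ : ∃ R : ℝ, R = (10 ^ 4 * (M : ℝ) ^ 2) ^ 2 := ⟨_, rfl⟩
  have hsR : √R = 10 ^ 4 * (M : ℝ) ^ 2 := by rw [hR, Real.sqrt_sq (by positivity)]
  have hM2 : (1 : ℝ) ≤ (M : ℝ) ^ 2 := one_le_pow₀ hM1
  have hM3 : (1 : ℝ) ≤ (M : ℝ) ^ 3 := one_le_pow₀ hM1
  have hRe : R = 10 ^ 8 * (M : ℝ) ^ 4 := by rw [hR]; ring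
  have hM4 : (M : ℝ) ^ 3 ≤ (M : ℝ) ^ 4 := pow_le_pow_right₀ hM1 (by norm_num)
  have hM31 : (M : ℝ) ≤ (M : ℝ) ^ 3 := by
    calc (M : ℝ) = (M : ℝ) ^ 1 := (pow_one _).symm
      _ ≤ _ := pow_le_pow_right₀ hM1 (by norm_num)
  have hR1 : (1 : ℝ) ≤ R := by rw [hRe]; linarith
  have hlogR : 0 ≤ Real.log R := Real.log_nonneg hR1
  have hc1 : 1 ≤ c := by
    have h5 : 1 ≤ M ^ 46 := Nat.one_le_pow _ _ hM
    have : 1 ≤ 10 ^ 162 * M ^ 46 := Nat.mul_pos (by norm_num) h5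
    omega
  have hA0 : 0 ≤ (M : ℝ) * (1 + Real.log R) := by positivity
  obtain ⟨κ, hκ⟩ : ∃ κ : ℝ, κ = 1 / (256 * (R * √R)) := ⟨_, rfl⟩
  have hκ0 : 0 < κ := by rw [hκ]; positivity
  have hκe : κ = 1 / (256 * 10 ^ 12 * (M : ℝ) ^ 6) := by
    rw [hκ, hsR, hRe]
    congr 1
    ring
  have hκ1 : κ ≤ 1 / 2 := by
    rw [hκe]
    apply one_div_le_one_div_of_le (by norm_num)
    have : (1 : ℝ) ≤ (M : ℝ) ^ 6 := one_le_pow₀ hM1
    linarith
  have hκR : κ ^ 2 * R ^ 3 = 1 / 256 ^ 2 := by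
    rw [hκe, hRe]
    field_simp
  obtain ⟨E, hE⟩ : ∃ E, E = EG ((M : ℝ) * (1 + Real.log R)) M R c := ⟨_, rfl⟩
  have hE1 : 1 ≤ E := by rw [hE]; exact EG_ge hA0 hR1 hc1
  have hβ0 : 0 < 1 / (M : ℝ) := by positivity
  have hβ1 : 1 / (M : ℝ) ≤ 1 := by
    rw [div_le_one hM0]
    exact hM1
  refine coeff_of h (fun k hk => ?_) k
  refine Pool.Agent.Helper74.GP.coreG (b := (1 / (M : ℝ)) / 10) (κ := κ) (ε := (1 / (M : ℝ)) ^ 2) (E := E) (T := M) (R := R)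
    (L := c) ?_ ?_ ?_ ?_ ?_ hk
  · refine ⟨by positivity, by linarith, hκ0, by linarith, by positivity, pow_le_one₀ hβ0.le hβ1, hE1⟩
  · refine ⟨hM1, ?_, ?_, ?_, ?_⟩
    · rw [hRe]; linarith
    · rw [hRe]; linarith
    · rw [hκR]; norm_num
    · rw [hκR, hRe]
      linarith
  · -- `1 ≤ κ b exp E`
    have hlogc : 0 ≤ Real.log c := Real.log_nonneg (by exact_mod_cast hc1)
    have h5 : (c : ℝ) ≤ Real.exp E := by
      have hc0 : (0 : ℝ) < c := by exact_mod_cast hc1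
      calc (c : ℝ) = Real.exp (Real.log c) := (Real.exp_log hc0).symm
        _ ≤ Real.exp E := by
          apply Real.exp_le_exp.2
          rw [hE]
          unfold EG
          have h6 : 0 ≤ (M : ℝ) * Real.log R := by positivity
          have h7 : Real.log c ≤ M * Real.log c := by nlinarith
          linarith
    have e1 : κ * (1 / (M : ℝ) / 10) = 1 / (2560 * 10 ^ 12 * (M : ℝ) ^ 7) := by
      rw [hκe]
      field_simp
      norm_num
    rw [e1, one_div, inv_mul_eq_div, le_div_iff₀ (by positivity), one_mul]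
    refine le_trans ?_ (hcR.trans h5)
    have h6 : (M : ℝ) ^ 7 ≤ (M : ℝ) ^ 46 := pow_le_pow_right₀ hM1 (by norm_num)
    calc (2560 * 10 ^ 12 : ℝ) * (M : ℝ) ^ 7 ≤ 10 ^ 162 * (M : ℝ) ^ 7 :=
          mul_le_mul_of_nonneg_right (by norm_num) (by positivity)
      _ ≤ _ := mul_le_mul_of_nonneg_left h6 (by positivity)
  · exact { toNice := h.nice
            dist := fun ρ hρ r hr => dist_pos hβ0 hβ1 h h1 hρ hr
            near := fun ρ hρ hs => near_sixty hβ0 h h1 hρ hs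
            far := fun ρ hρ => far_of h h2 hρ
            lo := fun r hr hrR => by rw [hE]; exact lo_half hA0 hR1 hc1 h (h3 R hR1) hr hrR
            hi := fun r θ hr hrR hθ => by
              rw [hE, hκ]
              rw [hκ] at hκ0 hκ1
              exact hi_half hA0 hκ0.le hκ1 hR1 hc1 h (h3 R hR1) (h4 R hR1) hr hrR hθ }
  · rw [hE, hκ]
    exact numbers hM hc hR

/-- **The final theorem from the four facts.** -/
theorem final_of (hN : AllNZ) (hF : AllFZ) (hL : AllLoZ) (hU : AllUpZ) :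
    ∃ D a : ℕ, ∀ (P : Type) [Fintype P] (G : Sh P), Pool.Agent.Helper43.Pln.Plane G → ∀ nab : Dg G → ℤ[X], Cs nab →
      D * Pool.Agent.Helper43.Pln.circles G ^ a ≤ Pool.Agent.Helper43.Pln.crossings G →
      Pool.Agent.Helper43.Pln.LogConcave G nab := by
  obtain ⟨B1, hB1, H1⟩ := hN
  obtain ⟨B2, hB2, H2⟩ := hF
  obtain ⟨B3, hB3, H3⟩ := hL
  obtain ⟨B4, hB4, H4⟩ := hU
  obtain ⟨B, hB⟩ : ∃ B, B = B1 + B2 + B3 + B4 := ⟨_, rfl⟩
  refine ⟨10 ^ 162 * (B * 2 ^ B) ^ 46, B * 46, fun P _ G hP nab hn hm => ?_⟩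
  have hne := Pool.Agent.Helper43.Pln.nonempty_of hP
  have e1 : sg G = Pool.Agent.Helper43.Pln.seifert G := by
    ext i
    rfl
  obtain ⟨s, hs⟩ : ∃ s, s = Pool.Agent.Helper43.Pln.circles G := ⟨_, rfl⟩
  have hG : Good s G := ⟨hP.cross, hP.conn, hP.genus, by
    unfold circ
    rw [e1, hs]
    exact le_rfl⟩
  have hs1 : 1 ≤ s := by
    rw [hs]
    unfold Pool.Agent.Helper43.Pln.circles
    have : Nonempty (Quotient (Equiv.Perm.SameCycle.setoid (Pool.Agent.Helper43.Pln.seifert G))) :=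
      ⟨Quotient.mk _ (Classical.choice hne)⟩
    exact Nat.card_pos
  rw [← hs] at hm
  have hM : 1 ≤ PB B s := PB_pos (by omega) s
  have hcount : 10 ^ 162 * PB B s ^ 46 ≤ Nat.card (Cr G) := by
    refine le_trans ?_ hm
    have h1 : PB B s ≤ B * 2 ^ B * s ^ B := by
      unfold PB
      calc B * (s + 1) ^ B ≤ B * (2 * s) ^ B := Nat.mul_le_mul_left _ (Nat.pow_le_pow_left (by omega) _)
        _ = B * 2 ^ B * s ^ B := by rw [mul_pow, mul_assoc]
    calc 10 ^ 162 * PB B s ^ 46 ≤ 10 ^ 162 * (B * 2 ^ B * s ^ B) ^ 46 :=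
          Nat.mul_le_mul_left _ (Nat.pow_le_pow_left h1 _)
      _ = 10 ^ 162 * (B * 2 ^ B) ^ 46 * s ^ (B * 46) := by rw [mul_pow, ← pow_mul, mul_assoc]
  have hp1 : (1 : ℝ) ≤ PB B1 s := by exact_mod_cast PB_pos hB1 s
  have hN1 : NZ (1 / (PB B s : ℝ)) (nab (allPos G)) := (H1 s P G hG hne nab hn).mono (by
    apply one_div_le_one_div_of_le (by linarith)
    exact_mod_cast PB_mono (by omega) s)
  have hMR : (1 : ℝ) ≤ (PB B s : ℝ) := by exact_mod_cast hM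
  have key := one_diagram hM hcount (pn_of hG hne hn (by positivity) hN1) hN1
    ((H2 s P G hG hne nab hn).mono (by exact_mod_cast PB_mono (by omega) s))
    (fun R hR => (H3 s P G hG hne nab hn R hR).mono (by
      have h1 : 0 ≤ Real.log R := Real.log_nonneg hR
      apply mul_le_mul_of_nonneg_right _ (by linarith)
      exact_mod_cast PB_mono (by omega) s) (PB_mono (by omega) s))
    (fun R hR => (H4 s P G hG hne nab hn R hR).mono (by
      have h1 : 0 ≤ Real.log R := Real.log_nonneg hR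
      apply mul_le_mul_of_nonneg_right _ (by linarith)
      exact_mod_cast PB_mono (by omega) s) (PB_mono (by omega) s))
  exact fun k => Pool.Agent.Helper43.Pln.lc_int (fun i => key i) _ k

end Pool.Agent.Helper57.GD
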