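import Pool.Agent.Helper57.GD.Final
import Pool.Agent.Helper2.GD.NZ

/-!
# GPOLY: from explicit statements to the four facts: no zeros near the axis, no far zeros
-/

set_option autoImplicit false

namespace Pool.Agent.Helper57.GD

open Polynomial Pool.Agent.Helper85.Exp Pool.Agent.Helper60.EV2 Pool.Agent.Helper2.PD Pool.Agent.Helper57.EV
  Pool.Agent.Helper57.PD Pool.Agent.Helper27.EV2 Pool.Agent.Helper16.PD Pool.Agent.Helper8.GD

/-- the second leg -/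
def LegAll : Prop := ∀ (P : Type) [Fintype P] (G : Sh P) (N : ℕ) (h : Good N G) (b : P) (c₀ be : ℝ), 0 < c₀ → c₀ ≤ 1 / 4 →
  0 ≤ be → 4 * 10 ^ 7 * (N : ℝ) ^ 10 * be ≤ c₀ ^ 9 → ∀ r : ℝ, 0 ≤ r → r < 1 → ∀ k : ℂ, c₀ ≤ k.re → k.re ≤ 1 / 2 + be →
  |k.im| ≤ be → ∀ e : Cr G ≃ (fdG h b).Col, Fdet h b e r k ≠ 0

/-- powers of `s + 1` -/
theorem le_PB {s a B : ℕ} {q : ℕ} (h1 : q ≤ B) (h2 : a ≤ B) : q * (s + 1) ^ a ≤ PB B s :=
  Nat.mul_le_mul h1 (Nat.pow_le_pow_right (by omega) h2)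

theorem allNZ_of (hL : LegAll) (hF : AllFZ) : AllNZ := by
  obtain ⟨B2, hB2, H2⟩ := hF
  refine ⟨4 * 10 ^ 8 * 16 ^ 9 * B2 ^ 9 + (10 + 9 * B2), by omega, fun s P _ G hG hne nab hn => ?_⟩
  obtain ⟨b⟩ := hne
  have h2 := H2 s P G hG ⟨b⟩ nab hn
  obtain ⟨T, hT⟩ : ∃ T : ℝ, T = (PB B2 s : ℝ) := ⟨_, rfl⟩
  have hT1 : 1 ≤ T := by
    rw [hT]
    exact_mod_cast PB_pos hB2 s
  rw [← hT] at h2
  obtain ⟨c₀, hc₀⟩ : ∃ c₀ : ℝ, c₀ = 1 / (16 * T) := ⟨_, rfl⟩
  obtain ⟨t, ht⟩ : ∃ t : ℝ, t = (s : ℝ) + 1 := ⟨_, rfl⟩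
  have hs0 : (0 : ℝ) ≤ s := Nat.cast_nonneg s
  have ht1 : 1 ≤ t := by linarith
  obtain ⟨w, hw⟩ : ∃ w : ℝ, w = c₀ ^ 9 / (4 * 10 ^ 7 * t ^ 10) := ⟨_, rfl⟩
  have hc0 : 0 < c₀ := by rw [hc₀]; positivity
  have hc1 : c₀ ≤ 1 / 16 := by
    rw [hc₀]
    exact one_div_le_one_div_of_le (by norm_num) (by linarith)
  have hw0 : 0 < w := by rw [hw]; positivity
  have ht10 : 1 ≤ t ^ 10 := one_le_pow₀ ht1
  have hwc : w ≤ c₀ := by
    rw [hw, div_le_iff₀ (by positivity)]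
    have h3 : c₀ ^ 9 ≤ c₀ := by
      calc c₀ ^ 9 ≤ c₀ ^ 1 := pow_le_pow_of_le_one hc0.le (by linarith) (by norm_num)
        _ = c₀ := pow_one _
    nlinarith
  have hw1 : w ≤ 1 / 10 := by linarith
  have h3 : 4 * c₀ + w / 10 ≤ 1 / (√T + 1) := by
    have h4 : √T ≤ T := by
      rw [Real.sqrt_le_left (by linarith)]
      nlinarith
    have h5 : 1 / (2 * T) ≤ 1 / (√T + 1) := one_div_le_one_div_of_le (by positivity) (by linarith)
    have h6 : 1 / (2 * T) = 8 * c₀ := by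
      rw [hc₀]
      field_simp
      norm_num
    linarith
  have h4 := Pool.Agent.Helper2.GD.nz_det hw0 hw1 hwc h3 hG b hn (fun e r hr0 hr1 κ hk1 hk2 hk3 =>
    hL P G s hG b c₀ w hc0 (by linarith) hw0.le (by
      have h5 : (s : ℝ) ^ 10 ≤ t ^ 10 := pow_le_pow_left₀ hs0 (by linarith) 10
      calc 4 * 10 ^ 7 * (s : ℝ) ^ 10 * w ≤ 4 * 10 ^ 7 * t ^ 10 * w := by gcongr
        _ = c₀ ^ 9 := by
          rw [hw]
          field_simp) r hr0 hr1 κ hk1 hk2 hk3 e) h2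
  refine h4.mono ?_
  have e1 : w / 10 = 1 / (4 * 10 ^ 8 * t ^ 10 * (16 * T) ^ 9) := by
    rw [hw, hc₀]
    field_simp
  rw [e1]
  apply one_div_le_one_div_of_le (by positivity)
  have h5 := le_PB (s := s) (a := 10 + 9 * B2) (q := 4 * 10 ^ 8 * 16 ^ 9 * B2 ^ 9)
    (B := 4 * 10 ^ 8 * 16 ^ 9 * B2 ^ 9 + (10 + 9 * B2)) (by omega) (by omega)
  have h6 : ((4 * 10 ^ 8 * 16 ^ 9 * B2 ^ 9 * (s + 1) ^ (10 + 9 * B2) : ℕ) : ℝ) ≤
      (PB (4 * 10 ^ 8 * 16 ^ 9 * B2 ^ 9 + (10 + 9 * B2)) s : ℝ) := by exact_mod_cast h5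
  refine le_trans (le_of_eq ?_) h6
  rw [hT, ht]
  unfold PB
  push_cast
  rw [pow_add, mul_comm 9 B2, pow_mul]
  ring

theorem allFZ_of (h : ∀ (s : ℕ) (P : Type) [Fintype P] (G : Sh P), Good s G → Nonempty P →
    ∀ nab : Dg G → ℤ[X], Cs nab → FZ (5776 * ((s * s * s : ℕ) : ℝ) ^ 2) (nab (allPos G))) : AllFZ := by
  refine ⟨5776, by norm_num, fun s P _ G hG hne nab hn => (h s P G hG hne nab hn).mono ?_⟩
  have h1 : 5776 * (s * s * s) ^ 2 ≤ PB 5776 s := by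
    refine le_trans ?_ (le_PB (s := s) (a := 6) (q := 5776) le_rfl (by norm_num))
    calc 5776 * (s * s * s) ^ 2 = 5776 * s ^ 6 := by ring
      _ ≤ _ := Nat.mul_le_mul_left _ (Nat.pow_le_pow_left (by omega) _)
  exact_mod_cast h1

theorem allLoZ_of (h : ∀ (n : ℕ) (P : Type) [Fintype P] (G : Sh P), Good n G → Nonempty P →
    ∀ nab : Dg G → ℤ[X], Cs nab → ∀ R : ℝ, 1 ≤ R →
      LoZ (((8 * n + 4 * (n * n * n) : ℕ) : ℝ) * (Real.log (12 * ((n * n * n : ℕ) : ℝ) * ((8 * n + 4 * (n * n * n) : ℕ) : ℝ)) +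
        (10 * n + 2) * Real.log (1 + √R))) (2 * (8 * n + 4 * (n * n * n))) R (Nat.card (Cr G)) (nab (allPos G))) : AllLoZ := by
  refine ⟨1872, by norm_num, fun s P _ G hG hne nab hn R hR => (h s P G hG hne nab hn R hR).mono ?_ ?_⟩
  · obtain ⟨t, ht⟩ : ∃ t : ℕ, t = s + 1 := ⟨_, rfl⟩
    have hst : s ≤ t := by omega
    have ht1 : 1 ≤ t := by omega
    have hlogR : 0 ≤ Real.log R := Real.log_nonneg hR
    have hM : 8 * s + 4 * (s * s * s) ≤ 12 * t ^ 3 := by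
      have h1 : s * s * s ≤ t ^ 3 := by
        calc s * s * s = s ^ 3 := by ring
          _ ≤ t ^ 3 := Nat.pow_le_pow_left hst 3
      have h2 : s ≤ t ^ 3 := hst.trans (Nat.le_self_pow (by norm_num) t)
      omega
    have h3 : s * s * s ≤ t ^ 3 := by
      calc s * s * s = s ^ 3 := by ring
        _ ≤ t ^ 3 := Nat.pow_le_pow_left hst 3
    have hMR : ((8 * s + 4 * (s * s * s) : ℕ) : ℝ) ≤ 12 * (t : ℝ) ^ 3 := by exact_mod_cast hM
    have h3R : ((s * s * s : ℕ) : ℝ) ≤ (t : ℝ) ^ 3 := by exact_mod_cast h3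
    have hstR : (s : ℝ) ≤ t := by exact_mod_cast hst
    have htR : (1 : ℝ) ≤ t := by exact_mod_cast ht1
    have hM0 : (0 : ℝ) ≤ ((8 * s + 4 * (s * s * s) : ℕ) : ℝ) := Nat.cast_nonneg _
    have h30 : (0 : ℝ) ≤ ((s * s * s : ℕ) : ℝ) := Nat.cast_nonneg _
    have hl1 : Real.log (12 * ((s * s * s : ℕ) : ℝ) * ((8 * s + 4 * (s * s * s) : ℕ) : ℝ)) ≤ 144 * (t : ℝ) ^ 6 := by
      refine (Real.log_le_self (by positivity)).trans ?_
      calc 12 * ((s * s * s : ℕ) : ℝ) * ((8 * s + 4 * (s * s * s) : ℕ) : ℝ) ≤ 12 * (t : ℝ) ^ 3 * (12 * (t : ℝ) ^ 3) := by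
            gcongr
        _ = _ := by ring
    have hl2 : Real.log (1 + √R) ≤ 1 + Real.log R := by
      have hs1 : 1 ≤ √R := by
        rw [Real.one_le_sqrt]
        exact hR
      have hs2 : √R ≤ R := by
        rw [Real.sqrt_le_left (by linarith)]
        nlinarith
      calc Real.log (1 + √R) ≤ Real.log (2 * R) := Real.log_le_log (by positivity) (by linarith)
        _ = Real.log 2 + Real.log R := Real.log_mul (by norm_num) (by linarith)
        _ ≤ 1 + Real.log R := by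
          have := Real.log_two_lt_d9
          linarith
    have hl3 : 0 ≤ Real.log (1 + √R) := Real.log_nonneg (by
      have := Real.sqrt_nonneg R
      linarith)
    have h10 : (10 * (s : ℝ) + 2) ≤ 12 * (t : ℝ) ^ 6 := by
      have : (t : ℝ) ≤ (t : ℝ) ^ 6 := by
        calc (t : ℝ) = (t : ℝ) ^ 1 := (pow_one _).symm
          _ ≤ _ := pow_le_pow_right₀ htR (by norm_num)
      linarith
    have hs0 : (0 : ℝ) ≤ s := Nat.cast_nonneg s
    calc ((8 * s + 4 * (s * s * s) : ℕ) : ℝ) * (Real.log (12 * ((s * s * s : ℕ) : ℝ) * ((8 * s + 4 * (s * s * s) : ℕ) : ℝ)) +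
          (10 * s + 2) * Real.log (1 + √R))
        ≤ ((8 * s + 4 * (s * s * s) : ℕ) : ℝ) * (144 * (t : ℝ) ^ 6 * (1 + Real.log R) + 12 * (t : ℝ) ^ 6 * (1 + Real.log R)) := by
          apply mul_le_mul_of_nonneg_left _ hM0
          apply add_le_add
          · have : 0 ≤ 144 * (t : ℝ) ^ 6 := by positivity
            nlinarith
          · exact mul_le_mul h10 hl2 hl3 (by positivity)
      _ = ((8 * s + 4 * (s * s * s) : ℕ) : ℝ) * (156 * (t : ℝ) ^ 6) * (1 + Real.log R) := by ring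
      _ ≤ 12 * (t : ℝ) ^ 3 * (156 * (t : ℝ) ^ 6) * (1 + Real.log R) := by
          have : 0 ≤ 1 + Real.log R := by linarith
          gcongr
      _ = 1872 * (t : ℝ) ^ 9 * (1 + Real.log R) := by ring
      _ ≤ (PB 1872 s : ℝ) * (1 + Real.log R) := by
          apply mul_le_mul_of_nonneg_right _ (by linarith)
          have h5 := le_PB (s := s) (a := 9) (q := 1872) (B := 1872) le_rfl (by norm_num)
          rw [← ht] at h5
          exact_mod_cast h5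
  · refine le_trans ?_ (le_PB (s := s) (a := 3) (q := 24) (B := 1872) (by norm_num) (by norm_num))
    have h1 : s * s * s ≤ (s + 1) ^ 3 := by
      calc s * s * s = s ^ 3 := by ring
        _ ≤ (s + 1) ^ 3 := Nat.pow_le_pow_left (by omega) 3
    have h2 : s ≤ (s + 1) ^ 3 := (show s ≤ s + 1 by omega).trans (Nat.le_self_pow (by norm_num) (s + 1))
    omega

/-- the upper bound -/
theorem allUpZ_of (B : ℕ) (C₀ : ℕ → ℝ) (M₀ : ℕ → ℕ) (hC1 : ∀ s, 1 ≤ C₀ s) (hC : ∀ s, C₀ s ≤ (PB B s : ℝ)) (hM : ∀ s, M₀ s ≤ PB B s)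
    (h : ∀ (s : ℕ) (P : Type) [Fintype P] (G : Sh P), Good s G → Nonempty P →
    ∀ nab : Dg G → ℤ[X], Cs nab → ∀ R : ℝ, 1 ≤ R →
      UpZ ((M₀ s : ℝ) * (Real.log (4 * C₀ s) + Real.log R)) (2 * M₀ s) (1 / (256 * (R * √R))) R (Nat.card (Cr G))
        (nab (allPos G))) : AllUpZ := by
  refine ⟨4 * B ^ 2 + 2 * B + 1, by omega, fun s P _ G hG hne nab hn R hR => (h s P G hG hne nab hn R hR).mono ?_ ?_⟩
  · have hlogR : 0 ≤ Real.log R := Real.log_nonneg hR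
    have h1 : Real.log (4 * C₀ s) ≤ 4 * (PB B s : ℝ) := by
      refine (Real.log_le_self (by have := hC1 s; linarith)).trans ?_
      have := hC s
      linarith
    have hPB1 : (1 : ℝ) ≤ (PB B s : ℝ) := (hC1 s).trans (hC s)
    have h2 : (M₀ s : ℝ) ≤ (PB B s : ℝ) := by exact_mod_cast hM s
    have h3 : (0 : ℝ) ≤ (M₀ s : ℝ) := Nat.cast_nonneg _
    calc (M₀ s : ℝ) * (Real.log (4 * C₀ s) + Real.log R) ≤ (PB B s : ℝ) * (4 * (PB B s : ℝ) * (1 + Real.log R)) := by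
          apply mul_le_mul h2 _ _ (by linarith)
          · nlinarith
          · have h4 : 0 ≤ Real.log (4 * C₀ s) := Real.log_nonneg (by have := hC1 s; linarith)
            linarith
      _ = (4 * (PB B s : ℝ) ^ 2) * (1 + Real.log R) := by ring
      _ ≤ _ := by
          apply mul_le_mul_of_nonneg_right _ (by linarith)
          have h5 : 4 * PB B s ^ 2 ≤ PB (4 * B ^ 2 + 2 * B + 1) s := by
            refine le_trans (le_of_eq ?_) (le_PB (s := s) (a := 2 * B) (q := 4 * B ^ 2) (by omega) (by omega))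
            unfold PB
            ring
          exact_mod_cast h5
  · have h1 := hM s
    refine (Nat.mul_le_mul_left 2 h1).trans ?_
    have hB : 2 * B ≤ 4 * B ^ 2 + 2 * B + 1 := by omega
    refine le_trans (le_of_eq ?_) (le_PB (s := s) (a := B) (q := 2 * B) hB (by omega))
    unfold PB
    ring

end Pool.Agent.Helper57.GD
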