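import Pool.Agent.Helper57.GD.Parts
import Pool.Agent.Helper29.GD.Hi

/-!
# GPOLY: the final theorem
-/

set_option autoImplicit false

namespace Pool.Agent.Helper57.GD

open Polynomial Pool.Agent.Helper85.Exp Pool.Agent.Helper60.EV2

/-- **The final theorem.** -/
theorem final : ∃ D a : ℕ, ∀ (P : Type) [Fintype P] (G : Sh P), Pool.Agent.Helper43.Pln.Plane G →
    ∀ nab : Dg G → ℤ[X], Cs nab → D * Pool.Agent.Helper43.Pln.circles G ^ a ≤ Pool.Agent.Helper43.Pln.crossings G →
      Pool.Agent.Helper43.Pln.LogConcave G nab :=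
  final_of allNZ Pool.Agent.Helper85.GD.allFZ allLoZ Pool.Agent.Helper29.GD.allUpZ

end Pool.Agent.Helper57.GD
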