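import Pool.Agent.Helper57.GD.ConvNZ
import Pool.Agent.Helper61.GD.Leg2
import Pool.Agent.Helper85.GD.FarAll
import Pool.Agent.Helper43.GD.LoZ

/-!
# GPOLY: three of the four facts
-/

set_option autoImplicit false

namespace Pool.Agent.Helper57.GD

open Polynomial Pool.Agent.Helper85.Exp Pool.Agent.Helper60.EV2 Pool.Agent.Helper2.PD Pool.Agent.Helper57.EV
  Pool.Agent.Helper57.PD Pool.Agent.Helper27.EV2 Pool.Agent.Helper16.PD Pool.Agent.Helper8.GD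

/-- **No zeros near the positive axis.** -/
theorem allNZ : AllNZ := by
  obtain ⟨B2, hB2, H2⟩ := Pool.Agent.Helper85.GD.allFZ
  refine ⟨4 * 10 ^ 8 * 16 ^ 9 * B2 ^ 9 + (10 + 9 * B2), by omega, fun s P _ G hG hne nab hn => ?_⟩
  obtain ⟨b⟩ := hne
  obtain ⟨T, hT⟩ : ∃ T : ℝ, T = (PB B2 s : ℝ) := ⟨_, rfl⟩
  have hT1 : 1 ≤ T := by
    rw [hT]
    exact_mod_cast PB_pos hB2 s
  obtain ⟨c₀, hc₀⟩ : ∃ c₀ : ℝ, c₀ = 1 / (16 * T) := ⟨_, rfl⟩
  obtain ⟨t, ht⟩ : ∃ t : ℝ, t = (s : ℝ) + 1 := ⟨_, rfl⟩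
  have hs0 : (0 : ℝ) ≤ s := Nat.cast_nonneg s
  have ht1 : 1 ≤ t := by linarith
  obtain ⟨w, hw⟩ : ∃ w : ℝ, w = c₀ ^ 9 / (4 * 10 ^ 7 * t ^ 10) := ⟨_, rfl⟩
  have hc0 : 0 < c₀ := by rw [hc₀]; positivity
  have hc1 : c₀ ≤ 1 / 16 := by
    rw [hc₀]
    exact one_div_le_one_div_of_le (by norm_num) (by linarith)
  have hw0 : 0 < w := by rw [hw]; positivity
  have ht10 : 1 ≤ t ^ 10 := one_le_pow₀ ht1
  have hwc : w ≤ c₀ := by
    rw [hw, div_le_iff₀ (by positivity)]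
    have h3 : c₀ ^ 9 ≤ c₀ := by
      calc c₀ ^ 9 ≤ c₀ ^ 1 := pow_le_pow_of_le_one hc0.le (by linarith) (by norm_num)
        _ = c₀ := pow_one _
    nlinarith
  have hw1 : w ≤ 1 / 10 := by linarith
  have h3 : 4 * c₀ + w / 10 ≤ 1 / (√T + 1) := by
    have h4 : √T ≤ T := by
      rw [Real.sqrt_le_left (by linarith)]
      nlinarith
    have h5 : 1 / (2 * T) ≤ 1 / (√T + 1) := one_div_le_one_div_of_le (by positivity) (by linarith)
    have h6 : 1 / (2 * T) = 8 * c₀ := by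
      rw [hc₀]
      field_simp
      norm_num
    linarith
  have hleg : Pool.Agent.Helper2.GD.Leg2 s w c₀ := Pool.Agent.Helper61.GD.leg2 hc0 (by linarith) hw0 (by
    rw [← ht]
    calc 10 ^ 6 * t ^ 10 * w ≤ 4 * 10 ^ 7 * t ^ 10 * w := by
          have : 0 ≤ t ^ 10 * w := by positivity
          nlinarith
      _ = c₀ ^ 9 := by
        rw [hw]
        field_simp)
  have hfar : Pool.Agent.Helper2.GD.FarB s T := fun P' _ G' hG' hne' nab' hn' z hz => by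
    have := H2 s P' G' hG' hne' nab' hn' z hz
    rw [hT]
    exact this
  have h4 := Pool.Agent.Helper2.GD.nz hw0 hw1 hwc h3 hleg hfar hG b hn
  refine h4.mono ?_
  have e1 : w / 10 = 1 / (4 * 10 ^ 8 * t ^ 10 * (16 * T) ^ 9) := by
    rw [hw, hc₀]
    field_simp
  rw [e1]
  apply one_div_le_one_div_of_le (by positivity)
  have h5 := le_PB (s := s) (a := 10 + 9 * B2) (q := 4 * 10 ^ 8 * 16 ^ 9 * B2 ^ 9)
    (B := 4 * 10 ^ 8 * 16 ^ 9 * B2 ^ 9 + (10 + 9 * B2)) (by omega) (by omega)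
  have h6 : ((4 * 10 ^ 8 * 16 ^ 9 * B2 ^ 9 * (s + 1) ^ (10 + 9 * B2) : ℕ) : ℝ) ≤
      (PB (4 * 10 ^ 8 * 16 ^ 9 * B2 ^ 9 + (10 + 9 * B2)) s : ℝ) := by exact_mod_cast h5
  refine le_trans (le_of_eq ?_) h6
  rw [hT, ht]
  unfold PB
  push_cast
  rw [pow_add, mul_comm 9 B2, pow_mul]
  ring

/-- **The lower bound.** -/
theorem allLoZ : AllLoZ := by
  refine allLoZ_of fun n P _ G hG hne nab hn R hR => ?_
  have h1 := Pool.Agent.Helper43.GD.loZ hG hne hn hR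
  unfold Pool.Agent.Helper43.GD.Mn at h1
  push_cast at h1 ⊢
  exact h1

end Pool.Agent.Helper57.GD
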